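import Mathlib

/-!
# MP_4402c4_co, Q1: a recurrent ternary word with infinitely many palindromes, language not closed
under reversal, whose sum of `T` is not twice the defect
-/

namespace Pool.Agent.Results.MP_4402c4_co.NotEqual

open Filter Topology

/-- the factor `u_i u_{i+1} ⋯ u_{i+n-1}` -/
def fac {A : Type} (u : ℕ → A) (i n : ℕ) : List A := (List.range n).map fun k => u (i + k)

/-- the language: all factors -/
def Lang {A : Type} (u : ℕ → A) : Set (List A) := {w | ∃ i n, w = fac u i n}

/-- every factor occurs infinitely often -/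
def Recurrent {A : Type} (u : ℕ → A) : Prop :=
  ∀ w ∈ Lang u, ∀ N : ℕ, ∃ i, N ≤ i ∧ w = fac u i w.length

/-- the language is closed under reversal -/
def ClosedUnderReversal {A : Type} (u : ℕ → A) : Prop := ∀ w ∈ Lang u, w.reverse ∈ Lang u

/-- factor complexity -/
noncomputable def C {A : Type} (u : ℕ → A) (n : ℕ) : ℕ := Set.ncard {w : List A | ∃ i, w = fac u i n}

/-- palindromic complexity -/
noncomputable def P {A : Type} (u : ℕ → A) (n : ℕ) : ℕ :=
  Set.ncard {w : List A | (∃ i, w = fac u i n) ∧ w.reverse = w}

/-- `T_u(n) = C(n+1) - C(n) + 2 - P(n+1) - P(n)` -/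
noncomputable def T {A : Type} (u : ℕ → A) (n : ℕ) : ℤ :=
  (C u (n + 1) : ℤ) - C u n + 2 - P u (n + 1) - P u n

/-- the defect of a finite word: `|w| + 1` minus the number of palindromic factors (the empty
word included) -/
noncomputable def defect {A : Type} (w : List A) : ℤ :=
  (w.length : ℤ) + 1 - (Set.ncard {v : List A | v <:+: w ∧ v.reverse = v} : ℤ)

/-- the defect of an infinite word: the supremum of the defects of its prefixes, in `[-∞, ∞]` -/
noncomputable def D {A : Type} (u : ℕ → A) : EReal := ⨆ n : ℕ, (((defect (fac u 0 n) : ℤ) : ℝ) : EReal)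

/-- the finite words `u_k` -/
def U : ℕ → List (Fin 3)
  | 0 => [0]
  | k + 1 => U k ++ (List.replicate ((U k).length + 5) 0 ++ (List.replicate ((U k).length + 5) 1 ++
      (List.replicate ((U k).length + 5) 2 ++ U k)))

/-- the infinite word -/
def u (i : ℕ) : Fin 3 := (U i).getD i 0

lemma len_succ (k : ℕ) : (U (k + 1)).length = 5 * (U k).length + 15 := by
  simp only [U, List.length_append, List.length_replicate]; ring

lemma len_gt (k : ℕ) : k < (U k).length := by
  induction k with
  | zero => simp [U]
  | succ k ih => rw [len_succ]; omega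

lemma len_mono {j k : ℕ} (h : j ≤ k) : (U j).length ≤ (U k).length := by
  induction k, h using Nat.le_induction with
  | base => exact le_refl _
  | succ k _ ih => rw [len_succ]; omega

lemma U_getElem {j k i : ℕ} (h : j ≤ k) (hi : i < (U j).length) : (U k)[i]? = (U j)[i]? := by
  induction k, h using Nat.le_induction with
  | base => rfl
  | succ k hk ih =>
    rw [← ih]
    have := len_mono hk
    show (U k ++ _)[i]? = _
    rw [List.getElem?_append_left (by omega)]

lemma u_eq {k i : ℕ} (hi : i < (U k).length) : (U k)[i]? = some (u i) := by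
  have h1 : (U i)[i]? = some (u i) := by
    unfold u
    rw [List.getD_eq_getElem?_getD, List.getElem?_eq_getElem (len_gt i)]
    rfl
  rcases Nat.le_total i k with h | h
  · rw [U_getElem h (len_gt i), h1]
  · rw [← U_getElem h hi, h1]

lemma fac_length {A : Type} (x : ℕ → A) (i n : ℕ) : (fac x i n).length = n := by
  simp [fac]

lemma fac_getElem? {A : Type} (x : ℕ → A) (i n k : ℕ) (hk : k < n) :
    (fac x i n)[k]? = some (x (i + k)) := by
  simp [fac, hk]

/-- `v` occurs in `W` -/
def Occ (v W : List (Fin 3)) : Prop :=
  ∃ i, i + v.length ≤ W.length ∧ ∀ k < v.length, W[i + k]? = v[k]?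

lemma occ_of_fac {i n k : ℕ} (h : i + n ≤ (U k).length) : Occ (fac u i n) (U k) := by
  refine ⟨i, by rw [fac_length]; exact h, ?_⟩
  intro l hl
  rw [fac_length] at hl
  rw [fac_getElem? u i n l hl, u_eq (by omega)]

lemma fac_of_getElem {i : ℕ} {v : List (Fin 3)} {k : ℕ} (h : i + v.length ≤ (U k).length)
    (h' : ∀ l < v.length, (U k)[i + l]? = v[l]?) : v = fac u i v.length := by
  apply List.ext_getElem?
  intro l
  rcases Nat.lt_or_ge l v.length with hl | hl
  · rw [fac_getElem? u i _ l hl, ← h' l hl, u_eq (by omega)]
  · rw [List.getElem?_eq_none hl, List.getElem?_eq_none (by rw [fac_length]; exact hl)]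

lemma occ_split {v X Y Z : List (Fin 3)} (hv : v.length ≤ Y.length + 1)
    (h : Occ v (X ++ (Y ++ Z))) : Occ v (X ++ Y) ∨ Occ v (Y ++ Z) := by
  obtain ⟨i, hi, hk⟩ := h
  rcases Nat.lt_or_ge i X.length with h1 | h1
  · left
    refine ⟨i, by rw [List.length_append]; omega, ?_⟩
    intro k hkv
    rw [← hk k hkv, ← List.append_assoc, List.getElem?_append_left (l₁ := X ++ Y)
      (by rw [List.length_append]; omega)]
  · right
    rw [List.length_append] at hi
    refine ⟨i - X.length, by omega, ?_⟩
    intro k hkv
    rw [← hk k hkv, List.getElem?_append_right (l₁ := X) (by omega)]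
    congr 1
    omega

lemma rep_get (p : ℕ) (x : Fin 3) (i : ℕ) (h : i < p) :
    (List.replicate p x)[i]? = some x := by
  rw [List.getElem?_replicate, if_pos h]

/-- reduce the lengths of the outer runs -/
lemma occ_shrink {v W : List (Fin 3)} {x y : Fin 3} {p q N : ℕ} (hv : v.length = N) (_ : N ≤ p)
    (_ : N ≤ q) (h : Occ v (List.replicate p x ++ (W ++ List.replicate q y))) :
    Occ v (List.replicate N x ++ (W ++ List.replicate N y)) := by
  obtain ⟨i, hi, hk⟩ := h
  simp only [List.length_append, List.length_replicate] at hi
  -- value of the long word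
  have hA : ∀ (P Q j : ℕ), j < P → (List.replicate P x ++ (W ++ List.replicate Q y))[j]? = some x := by
    intro P Q j hj
    rw [List.getElem?_append_left (by rw [List.length_replicate]; exact hj), rep_get _ _ _ hj]
  have hB : ∀ (P Q j : ℕ), P ≤ j → j < P + W.length →
      (List.replicate P x ++ (W ++ List.replicate Q y))[j]? = W[j - P]? := by
    intro P Q j hj hj'
    rw [List.getElem?_append_right (by rw [List.length_replicate]; exact hj),
      List.getElem?_append_left (by rw [List.length_replicate]; omega), List.length_replicate]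
  have hC : ∀ (P Q j : ℕ), P + W.length ≤ j → j < P + W.length + Q →
      (List.replicate P x ++ (W ++ List.replicate Q y))[j]? = some y := by
    intro P Q j hj hj'
    rw [List.getElem?_append_right (by rw [List.length_replicate]; omega),
      List.getElem?_append_right (by rw [List.length_replicate]; omega), List.length_replicate,
      rep_get _ _ _ (by omega)]
  rcases Nat.lt_or_ge p (i + N) with h1 | h1
  · rcases Nat.lt_or_ge i (p + W.length) with h2 | h2
    · refine ⟨i + N - p, by simp only [List.length_append, List.length_replicate]; omega, ?_⟩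
      intro k hkv
      rw [← hk k hkv]
      rcases Nat.lt_or_ge (i + k) p with h3 | h3
      · rw [hA p q _ h3, hA N N _ (by omega)]
      · rcases Nat.lt_or_ge (i + k) (p + W.length) with h4 | h4
        · rw [hB p q _ h3 h4, hB N N _ (by omega) (by omega)]
          congr 1
          omega
        · rw [hC p q _ h4 (by omega), hC N N _ (by omega) (by omega)]
    · refine ⟨N + W.length, by simp only [List.length_append, List.length_replicate]; omega, ?_⟩
      intro k hkv
      rw [← hk k hkv, hC p q _ (by omega) (by omega), hC N N _ (by omega) (by omega)]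
  · refine ⟨0, by simp only [List.length_append, List.length_replicate]; omega, ?_⟩
    intro k hkv
    rw [← hk k hkv, hA p q _ (by omega), hA N N _ (by omega)]

lemma family {k j N : ℕ} (hkj : k ≤ j) (hN : N ≤ (U k).length + 5) {v : List (Fin 3)}
    (hv : v.length = N)
    (h : Occ v (List.replicate N 2 ++ (U j ++ List.replicate N 0))) :
    Occ v (List.replicate N 0 ++ ([] ++ List.replicate N 1)) ∨
    Occ v (List.replicate N 1 ++ ([] ++ List.replicate N 2)) ∨
    Occ v (List.replicate N 2 ++ (U k ++ List.replicate N 0)) := by
  induction j, hkj using Nat.le_induction with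
  | base => right; right; exact h
  | succ j hkj ih =>
    have hm : N ≤ (U j).length + 5 := by
      have := len_mono hkj; omega
    obtain ⟨m, hmdef⟩ : ∃ m, m = (U j).length + 5 := ⟨_, rfl⟩
    have e : List.replicate N 2 ++ (U (j + 1) ++ List.replicate N 0) =
        (List.replicate N 2 ++ U j) ++ (List.replicate m 0 ++ (List.replicate m 1 ++
          (List.replicate m 2 ++ (U j ++ List.replicate N 0)))) := by
      simp only [U, List.append_assoc, hmdef]
    rw [e] at h
    rcases occ_split (by rw [List.length_replicate]; omega) h with h1 | h1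
    · apply ih
      rw [List.append_assoc] at h1
      exact occ_shrink hv (le_refl _) (by omega) h1
    · rcases occ_split (by rw [List.length_replicate]; omega) h1 with h2 | h2
      · left
        exact occ_shrink (W := []) hv (by omega) (by omega) h2
      · rcases occ_split (by rw [List.length_replicate]; omega) h2 with h3 | h3
        · right; left
          exact occ_shrink (W := []) hv (by omega) (by omega) h3
        · apply ih
          exact occ_shrink hv (by omega) (le_refl _) h3

lemma occ_count (W : List (Fin 3)) (N : ℕ) :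
    ({v : List (Fin 3) | v.length = N ∧ Occ v W}).Finite ∧
    Set.ncard {v : List (Fin 3) | v.length = N ∧ Occ v W} ≤ W.length + 1 - N := by
  classical
  have hsub : {v : List (Fin 3) | v.length = N ∧ Occ v W} ⊆
      ((Finset.range (W.length + 1 - N)).image (fun i => (W.drop i).take N) :
        Finset (List (Fin 3))) := by
    rintro v ⟨hv, i, hi, hk⟩
    rw [Finset.mem_coe, Finset.mem_image]
    refine ⟨i, Finset.mem_range.mpr (by omega), ?_⟩
    apply List.ext_getElem?
    intro l
    rcases Nat.lt_or_ge l N with hl | hl
    · rw [List.getElem?_take_of_lt hl, List.getElem?_drop]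
      exact hk l (by omega)
    · rw [List.getElem?_eq_none (by rw [List.length_take]; omega),
        List.getElem?_eq_none (by omega)]
  refine ⟨(Finset.finite_toSet _).subset hsub, ?_⟩
  refine (Set.ncard_le_ncard hsub (Finset.finite_toSet _)).trans ?_
  rw [Set.ncard_coe_finset]
  exact Finset.card_image_le.trans (by rw [Finset.card_range])

lemma fac_family {k N i : ℕ} (hN : N ≤ (U k).length + 5) :
    Occ (fac u i N) (List.replicate N 0 ++ ([] ++ List.replicate N 1)) ∨
    Occ (fac u i N) (List.replicate N 1 ++ ([] ++ List.replicate N 2)) ∨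
    Occ (fac u i N) (List.replicate N 2 ++ (U k ++ List.replicate N 0)) := by
  have h1 := len_gt (i + N + k)
  obtain ⟨a, ha, ha'⟩ := occ_of_fac (i := i) (n := N) (k := i + N + k) (by omega)
  apply family (j := i + N + k) (by omega) hN (fac_length _ _ _)
  refine ⟨N + a, by simp only [List.length_append, List.length_replicate]; omega, ?_⟩
  intro l hl
  rw [← ha' l hl, List.getElem?_append_right (by rw [List.length_replicate]; omega),
    List.getElem?_append_left (by rw [List.length_replicate]; omega), List.length_replicate]
  congr 1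
  omega

lemma C_le {k N : ℕ} (hN : N ≤ (U k).length + 5) : C u N ≤ 3 * N + (U k).length + 3 := by
  have hsub : {w : List (Fin 3) | ∃ i, w = fac u i N} ⊆
      {v | v.length = N ∧ Occ v (List.replicate N 0 ++ ([] ++ List.replicate N 1))} ∪
      ({v | v.length = N ∧ Occ v (List.replicate N 1 ++ ([] ++ List.replicate N 2))} ∪
      {v | v.length = N ∧ Occ v (List.replicate N 2 ++ (U k ++ List.replicate N 0))}) := by
    rintro w ⟨i, rfl⟩
    rcases fac_family (i := i) hN with h | h | h
    · left; exact ⟨fac_length _ _ _, h⟩
    · right; left; exact ⟨fac_length _ _ _, h⟩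
    · right; right; exact ⟨fac_length _ _ _, h⟩
  have h1 := occ_count (List.replicate N 0 ++ ([] ++ List.replicate N 1)) N
  have h2 := occ_count (List.replicate N 1 ++ ([] ++ List.replicate N 2)) N
  have h3 := occ_count (List.replicate N 2 ++ (U k ++ List.replicate N 0)) N
  have h4 := Set.ncard_le_ncard hsub (h1.1.union (h2.1.union h3.1))
  have h5 := Set.ncard_union_le
    {v | v.length = N ∧ Occ v (List.replicate N 0 ++ ([] ++ List.replicate N 1))}
    ({v | v.length = N ∧ Occ v (List.replicate N 1 ++ ([] ++ List.replicate N 2))} ∪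
      {v | v.length = N ∧ Occ v (List.replicate N 2 ++ (U k ++ List.replicate N 0))})
  have h6 := Set.ncard_union_le
    {v | v.length = N ∧ Occ v (List.replicate N 1 ++ ([] ++ List.replicate N 2))}
      {v | v.length = N ∧ Occ v (List.replicate N 2 ++ (U k ++ List.replicate N 0))}
  have h7 := h1.2
  have h8 := h2.2
  have h9 := h3.2
  simp only [List.length_append, List.length_replicate, List.length_nil] at h7 h8 h9
  unfold C
  omega

lemma U_succ_parts (k : ℕ) (x : Fin 3) : ∃ i, i + ((U k).length + 5) ≤ (U (k + 1)).length ∧
    ∀ l < (U k).length + 5, (U (k + 1))[i + l]? = some x := by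
  obtain ⟨m, hm⟩ : ∃ m, m = (U k).length + 5 := ⟨_, rfl⟩
  have e : U (k + 1) = U k ++ (List.replicate m 0 ++ (List.replicate m 1 ++
      (List.replicate m 2 ++ U k))) := by rw [hm]; rfl
  rw [e, ← hm]
  fin_cases x
  · refine ⟨(U k).length, by simp only [List.length_append, List.length_replicate]; omega, ?_⟩
    intro l hl
    rw [List.getElem?_append_right (by omega), List.getElem?_append_left (by
      rw [List.length_replicate]; omega), rep_get _ _ _ (by omega)]
    rfl
  · refine ⟨(U k).length + m, by simp only [List.length_append, List.length_replicate]; omega, ?_⟩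
    intro l hl
    rw [List.getElem?_append_right (by omega), List.getElem?_append_right (by
      rw [List.length_replicate]; omega), List.getElem?_append_left (by
      rw [List.length_replicate, List.length_replicate]; omega), List.length_replicate,
      rep_get _ _ _ (by omega)]
    rfl
  · refine ⟨(U k).length + m + m,
      by simp only [List.length_append, List.length_replicate]; omega, ?_⟩
    intro l hl
    rw [List.getElem?_append_right (by omega), List.getElem?_append_right (by
      rw [List.length_replicate]; omega), List.getElem?_append_right (by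
      rw [List.length_replicate, List.length_replicate]; omega), List.getElem?_append_left (by
      simp only [List.length_replicate]; omega), List.length_replicate, List.length_replicate,
      rep_get _ _ _ (by omega)]
    rfl

lemma rep_fac (n : ℕ) (x : Fin 3) : ∃ i, List.replicate n x = fac u i n := by
  obtain ⟨i, hi, hl⟩ := U_succ_parts n x
  have h1 := len_gt n
  refine ⟨i, ?_⟩
  have := fac_of_getElem (v := List.replicate n x) (i := i) (k := n + 1)
    (by rw [List.length_replicate]; omega) (by
      intro l hl'
      rw [List.length_replicate] at hl'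
      rw [hl l (by omega), rep_get _ _ _ hl'])
  rwa [List.length_replicate] at this

lemma fac_finite (n : ℕ) : {w : List (Fin 3) | ∃ i, w = fac u i n}.Finite := by
  apply Set.Finite.subset (List.finite_length_eq (Fin 3) n)
  rintro w ⟨i, rfl⟩
  exact fac_length _ _ _

lemma P_ge {n : ℕ} (hn : 1 ≤ n) : 3 ≤ P u n := by
  classical
  have hsub : (({List.replicate n 0, List.replicate n 1, List.replicate n 2} :
      Finset (List (Fin 3))) : Set (List (Fin 3))) ⊆
      {w : List (Fin 3) | (∃ i, w = fac u i n) ∧ w.reverse = w} := by
    intro w hw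
    simp only [Finset.coe_insert, Finset.coe_singleton, Set.mem_insert_iff,
      Set.mem_singleton_iff] at hw
    rcases hw with rfl | rfl | rfl
    · exact ⟨rep_fac n 0, List.reverse_replicate⟩
    · exact ⟨rep_fac n 1, List.reverse_replicate⟩
    · exact ⟨rep_fac n 2, List.reverse_replicate⟩
  have h1 := Set.ncard_le_ncard hsub ((fac_finite n).subset fun w hw => hw.1)
  rw [Set.ncard_coe_finset] at h1
  have h2 : ∀ x y : Fin 3, x ≠ y → List.replicate n x ≠ List.replicate n y := by
    intro x y hxy h
    apply hxy
    have h3 : (List.replicate n x)[0]? = (List.replicate n y)[0]? := by rw [h]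
    rw [rep_get _ _ _ (by omega), rep_get _ _ _ (by omega)] at h3
    exact Option.some_inj.mp h3
  rw [Finset.card_insert_of_notMem, Finset.card_insert_of_notMem, Finset.card_singleton] at h1
  · exact h1
  · rw [Finset.mem_singleton]
    exact h2 _ _ (by decide)
  · rw [Finset.mem_insert, Finset.mem_singleton, not_or]
    exact ⟨h2 _ _ (by decide), h2 _ _ (by decide)⟩

lemma C_zero : C u 0 = 1 := by
  unfold C
  have : {w : List (Fin 3) | ∃ i, w = fac u i 0} = {[]} := by
    ext w
    simp [fac]
  rw [this, Set.ncard_singleton]

lemma P_zero : P u 0 = 1 := by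
  unfold P
  have : {w : List (Fin 3) | (∃ i, w = fac u i 0) ∧ w.reverse = w} = {[]} := by
    ext w
    simp only [fac, List.range_zero, List.map_nil, exists_const, Set.mem_ofPred_eq,
      Set.mem_singleton_iff]
    constructor
    · rintro ⟨rfl, -⟩; rfl
    · rintro rfl; exact ⟨rfl, rfl⟩
  rw [this, Set.ncard_singleton]

lemma sum_T (M : ℕ) : ∑ n ∈ Finset.range (M + 1), T u n ≤ (C u (M + 1) : ℤ) - 4 * (M + 1) + 1 := by
  induction M with
  | zero =>
    have h1 := P_ge (le_refl 1)
    simp only [zero_add, Finset.range_one, Finset.sum_singleton, T]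
    rw [C_zero, P_zero]
    push_cast
    have : (3 : ℤ) ≤ P u 1 := by exact_mod_cast h1
    linarith
  | succ M ih =>
    rw [Finset.sum_range_succ]
    have h1 : (3 : ℤ) ≤ P u (M + 1) := by exact_mod_cast P_ge (by omega)
    have h2 : (3 : ℤ) ≤ P u (M + 1 + 1) := by exact_mod_cast P_ge (by omega)
    have h3 : T u (M + 1) = (C u (M + 1 + 1) : ℤ) - C u (M + 1) + 2 - P u (M + 1 + 1) - P u (M + 1) :=
      rfl
    rw [h3]
    push_cast
    linarith

lemma sum_T_neg (k : ℕ) : ∑ n ∈ Finset.range ((U k).length + 5), T u n ≤ -1 := by
  have h1 := sum_T ((U k).length + 4)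
  have h2 := C_le (k := k) (N := (U k).length + 5) (le_refl _)
  rw [show (U k).length + 4 + 1 = (U k).length + 5 by omega] at h1
  have h3 : (C u ((U k).length + 5) : ℤ) ≤ 3 * ((U k).length + 5) + (U k).length + 3 := by
    exact_mod_cast h2
  push_cast at h1
  linarith

lemma recurrent_u : Recurrent u := by
  rintro w ⟨i, n, rfl⟩ N
  rw [fac_length]
  obtain ⟨j, hj⟩ : ∃ j, j = i + n + N := ⟨_, rfl⟩
  have h1 := len_gt j
  obtain ⟨m, hm⟩ : ∃ m, m = (U j).length + 5 := ⟨_, rfl⟩
  have e : U (j + 1) = U j ++ (List.replicate m 0 ++ (List.replicate m 1 ++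
      (List.replicate m 2 ++ U j))) := by rw [hm]; rfl
  refine ⟨(U j).length + m + m + m + i, by omega, ?_⟩
  have h2 := fac_of_getElem (v := fac u i n) (i := (U j).length + m + m + m + i) (k := j + 1)
    (by rw [fac_length, e]; simp only [List.length_append, List.length_replicate]; omega) (by
      intro l hl
      rw [fac_length] at hl
      rw [e, List.getElem?_append_right (by omega), List.getElem?_append_right (by
        rw [List.length_replicate]; omega), List.getElem?_append_right (by
        simp only [List.length_replicate]; omega), List.getElem?_append_right (by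
        simp only [List.length_replicate]; omega), fac_getElem? u i n l hl]
      simp only [List.length_replicate]
      rw [← u_eq (k := j) (i := i + l) (by omega)]
      congr 1
      omega)
  rw [fac_length] at h2
  exact h2

lemma not_closed : ¬ ClosedUnderReversal u := by
  intro h
  -- `ab` is a factor
  have h1 : fac u 6 2 = [0, 1] := by decide
  have h2 := h [0, 1] ⟨6, 2, h1.symm⟩
  obtain ⟨i, n, hi⟩ := h2
  have hn : n = 2 := by
    have := congrArg List.length hi
    rw [fac_length] at this
    simpa using this.symm
  subst hn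
  have h3 := fac_family (k := 0) (N := 2) (i := i) (by simp [U])
  rw [← hi] at h3
  have hno : ∀ W : List (Fin 3), W.length ≤ 5 → (∀ i < 5, ¬ (W[i]? = some 1 ∧ W[i + 1]? = some 0)) →
      ¬ Occ [1, 0] W := by
    rintro W hW hall ⟨a, ha, hk⟩
    have h4 := hk 0 (by simp)
    have h5 := hk 1 (by simp)
    simp only [List.length_cons, List.length_nil] at ha
    exact hall a (by omega) ⟨h4, h5⟩
  have hrev : ([0, 1] : List (Fin 3)).reverse = [1, 0] := rfl
  rw [hrev] at h3
  rcases h3 with h3 | h3 | h3
  · exact hno _ (by simp) (by decide) h3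
  · exact hno _ (by simp) (by decide) h3
  · exact hno _ (by simp [U]) (by decide) h3

lemma inf_pal : {w : List (Fin 3) | w ∈ Lang u ∧ w.reverse = w}.Infinite := by
  apply Set.infinite_of_injective_forall_mem (f := fun n : ℕ => List.replicate n (0 : Fin 3))
  · intro a b h
    have := congrArg List.length h
    simpa using this
  · intro n
    obtain ⟨i, hi⟩ := rep_fac n 0
    exact ⟨⟨i, n, hi⟩, List.reverse_replicate⟩

lemma D_nonneg : 0 ≤ D u := by
  have h1 : defect (fac u 0 0) = 0 := by
    unfold defect
    have : {v : List (Fin 3) | v <:+: fac u 0 0 ∧ v.reverse = v} = {[]} := by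
      ext v
      simp only [fac, List.range_zero, List.map_nil, List.infix_nil, Set.mem_ofPred_eq,
        Set.mem_singleton_iff]
      constructor
      · rintro ⟨rfl, -⟩; rfl
      · rintro rfl; exact ⟨rfl, rfl⟩
    rw [this, Set.ncard_singleton]
    simp [fac]
  have h2 := le_iSup (fun n : ℕ => (((defect (fac u 0 n) : ℤ) : ℝ) : EReal)) 0
  rw [h1] at h2
  have h3 : (((0 : ℤ) : ℝ) : EReal) = 0 := by simp
  rw [h3] at h2
  exact h2

/-- Q1 is false: there is a recurrent infinite word over a three-letter alphabet with infinitely
many palindromic factors whose language is not closed under reversal, and for which the partial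
sums of `∑ T_u(n)` do not converge (in `[-∞, ∞]`) to `2 D(u)`. -/
theorem result : ∃ u : ℕ → Fin 3, Recurrent u ∧
    {w : List (Fin 3) | w ∈ Lang u ∧ w.reverse = w}.Infinite ∧ ¬ ClosedUnderReversal u ∧
    ¬ Tendsto (fun N : ℕ => (((∑ n ∈ Finset.range N, T u n : ℤ) : ℝ) : EReal)) atTop
      (𝓝 (2 * D u)) := by
  refine ⟨u, recurrent_u, inf_pal, not_closed, ?_⟩
  intro h
  have h0 : (-1 : EReal) < 2 * D u := by
    have h1 : (0 : EReal) ≤ 2 * D u := mul_nonneg (by norm_num) D_nonneg
    refine lt_of_lt_of_le ?_ h1
    have : ((-1 : ℝ) : EReal) < ((0 : ℝ) : EReal) := by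
      rw [EReal.coe_lt_coe_iff]; norm_num
    simp
  have h1 := h.eventually (lt_mem_nhds h0)
  rw [eventually_atTop] at h1
  obtain ⟨N, hN⟩ := h1
  have h2 := hN ((U N).length + 5) (by have := len_gt N; omega)
  have h3 : (((∑ n ∈ Finset.range ((U N).length + 5), T u n : ℤ) : ℝ) : EReal) ≤ (-1 : EReal) := by
    have h4 : ((∑ n ∈ Finset.range ((U N).length + 5), T u n : ℤ) : ℝ) ≤ (-1 : ℝ) := by
      exact_mod_cast sum_T_neg N
    have h5 := EReal.coe_le_coe_iff.mpr h4
    simpa using h5
  exact absurd h2 (not_lt.mpr h3)

end Pool.Agent.Results.MP_4402c4_co.NotEqual
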